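import Pool.Agent.Lib.P47c.Model
import Pool.Agent.Lib.P47s.Model
import Pool.Agent.Lib.P47s.KL3

/-!
Convex programs and the sum-of-squares hierarchy for metric k-median.

Definitions: `Space` in `Pool/Agent/Lib/P47c/Defs.lean`; `Inst`, `Inst.cost`, `Inst.opt`,
`Inst.rename`, `Inst.Nearest`, `Inst.ApproxBy` in `Pool/Agent/Lib/P47c/Model.lean`; `Poly`, `SosK` in
`Pool/Agent/Lib/P47s/Model.lean`.
-/

namespace Pool.Agent.Results.MP_47cc85_lc.KMedianPrograms

open Pool.Agent.Lib.P47c Pool.Agent.Lib.P47s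

/-- For every `1 ≤ α < 1 + 2 / e` there is `Q` such that for all large `m` there are numbers
`M ≤ m ^ Q`, `k ≤ m` and one k-median instance (no opening costs) with `m` facilities and at most
`m` clients for which every convex program with at most `exp (m ^ (1/72))` constraints of dimension
at most `m ^ (1/72)`, together with all constraints of degree `2 t` of the sum-of-squares hierarchy,
`t ≤ m ^ (1/72)`, approximates the optimum within the factor `α` for at most a fraction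
`exp (-m ^ (1/72))` of the renamings of the facilities and clients. -/
theorem result (α : ℝ) (hα1 : 1 ≤ α) (hα : α < 1 + 2 / Real.exp 1) :
    ∃ Q m0 : ℕ, ∀ m ≥ m0, ∃ (M k : ℕ) (I : Inst m M), M ≤ m ^ Q ∧
      1 ≤ k ∧ k ≤ m ∧ I.clients.card ≤ m ∧ (∀ i, I.opening i = 0) ∧
      ∀ (Y : Type) [AddCommGroup Y] [Module ℝ Y] (R d t : ℕ)
        (A : Fin R → Y →ₗ[ℝ] (Fin d → ℝ)) (C : Fin R → Set (Fin d → ℝ))
        (pt : Finset (Fin m) → (Fin M → Fin m) → Y),
        (R : ℝ) ≤ Real.exp ((m : ℝ) ^ (1 / 72 : ℝ)) → (d : ℝ) ≤ (m : ℝ) ^ (1 / 72 : ℝ) →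
        (t : ℝ) ≤ (m : ℝ) ^ (1 / 72 : ℝ) → (∀ i, Convex ℝ (C i)) →
        (∀ S σ, S.Nonempty → S.card ≤ k → (∀ j, σ j ∈ S) → ∀ i, A i (pt S σ) ∈ C i) →
        (Nat.card {g : Equiv.Perm (Fin m) × Equiv.Perm (Fin M) //
          (I.rename g.1 g.2).ApproxBy ({y | ∀ i, A i y ∈ C i} ∩ SosK pt k t) pt
            (fun S => S.Nonempty ∧ S.card ≤ k) α} : ℝ) ≤
          Real.exp (-(m : ℝ) ^ (1 / 72 : ℝ)) * (m.factorial * M.factorial) :=
  kLow3 α hα1 hα

end Pool.Agent.Results.MP_47cc85_lc.KMedianPrograms
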